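import Mathlib.NumberTheory.Wilson
import Mathlib.NumberTheory.LegendreSymbol.Basic
import Mathlib.Data.Nat.Prime.Factorial
import Mathlib.Tactic

namespace Pool.Agent.Work.MP_dd0b6b_nt

open Finset

variable {p : ℕ} [hp : Fact p.Prime]

theorem fac_ne_zero {a : ℕ} (ha : a < p) : ((a.factorial : ℕ) : ZMod p) ≠ 0 := by
  rw [Ne, ZMod.natCast_eq_zero_iff, hp.out.dvd_factorial]
  omega

theorem cast_ne_zero' {a : ℕ} (h0 : 0 < a) (ha : a < p) : ((a : ℕ) : ZMod p) ≠ 0 := by
  rw [Ne, ZMod.natCast_eq_zero_iff]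
  intro h
  have := Nat.le_of_dvd h0 h
  omega

theorem two_n {n : ℕ} (hn : p = 2 * n + 1) : (2 : ZMod p) * (n : ZMod p) = -1 := by
  have h : ((2 * n + 1 : ℕ) : ZMod p) = 0 := by rw [← hn]; exact ZMod.natCast_self p
  push_cast at h
  linear_combination h

theorem n_pos {n : ℕ} (hn : p = 2 * n + 1) : 0 < n := by
  have := hp.out.two_le
  omega

theorem two_ne {n : ℕ} (hn : p = 2 * n + 1) : (2 : ZMod p) ≠ 0 := by
  have := n_pos hn
  exact_mod_cast cast_ne_zero' (p := p) (a := 2) (by norm_num) (by omega)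

theorem wilson_refl : ∀ a b : ℕ, a + b + 1 = p →
    ((a.factorial : ℕ) : ZMod p) * (b.factorial : ℕ) = (-1) ^ (a + 1) := by
  intro a
  induction a with
  | zero =>
    intro b hb
    have : b = p - 1 := by omega
    rw [this, ZMod.wilsons_lemma]; simp
  | succ a ih =>
    intro b hb
    have h1 := ih (b + 1) (by omega)
    have h2 : ((a + 1 + b + 1 : ℕ) : ZMod p) = 0 := by rw [hb]; exact ZMod.natCast_self p
    rw [Nat.factorial_succ] at h1 ⊢
    push_cast at h1 h2 ⊢
    rw [pow_succ (-1 : ZMod p) (a + 1), ← h1]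
    linear_combination ((a.factorial : ℕ) : ZMod p) * (b.factorial : ℕ) * h2

theorem wilson_sq (a b : ℕ) (h : a + b + 1 = p) :
    ((a.factorial : ℕ) : ZMod p) ^ 2 * ((b.factorial : ℕ) : ZMod p) ^ 2 = 1 := by
  rw [← mul_pow, wilson_refl a b h, ← pow_mul, mul_comm, pow_mul]; simp

theorem half_fac_sq {q : ℕ} (hq : p = 2 * (2 * q) + 1) :
    (((2 * q).factorial : ℕ) : ZMod p) ^ 2 = -1 := by
  rw [sq, wilson_refl (2 * q) (2 * q) (by omega), pow_succ, pow_mul]; simp

theorem pow_two_n {n : ℕ} (hn : p = 2 * n + 1) {y : ZMod p} (hy : y ≠ 0) : y ^ (2 * n) = 1 := by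
  have := ZMod.pow_card_sub_one_eq_one hy
  rwa [show p - 1 = 2 * n by omega] at this

theorem two_pow_n {q : ℕ} (hq : p = 2 * (2 * q) + 1) : (2 : ZMod p) ^ (2 * q) = (-1) ^ q := by
  set i : ZMod p := (((2 * q).factorial : ℕ) : ZMod p) with hi
  have hi2 : i ^ 2 = -1 := half_fac_sq hq
  have h1 : 1 + i ≠ 0 := by
    intro h
    apply two_ne hq
    have : i = -1 := by linear_combination h
    rw [this] at hi2
    linear_combination hi2
  have h2 := pow_two_n hq h1
  rw [pow_mul, show (1 + i) ^ 2 = 2 * i by linear_combination hi2, mul_pow, pow_mul i, hi2] at h2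
  have h3 : ((-1 : ZMod p) ^ q) * (-1) ^ q = 1 := by rw [← mul_pow]; simp
  linear_combination (-1 : ZMod p) ^ q * h2 - (2 : ZMod p) ^ (2 * q) * h3

theorem n_pow_n {q : ℕ} (hq : p = 2 * (2 * q) + 1) :
    (((2 * q : ℕ) : ZMod p)) ^ (2 * q) = (-1) ^ q := by
  have h1 : (2 : ZMod p) ^ (2 * q) * (((2 * q : ℕ) : ZMod p)) ^ (2 * q) = 1 := by
    rw [← mul_pow, two_n hq, pow_mul]; simp
  rw [two_pow_n hq] at h1
  have h3 : ((-1 : ZMod p) ^ q) * (-1) ^ q = 1 := by rw [← mul_pow]; simp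
  linear_combination (-1 : ZMod p) ^ q * h1 - (((2 * q : ℕ) : ZMod p)) ^ (2 * q) * h3

theorem sign_sum (q : ℕ) : (-1 : ZMod p) ^ (∑ t ∈ range (2 * q), t) = (-1) ^ q := by
  induction q with
  | zero => simp
  | succ q ih =>
    rw [show 2 * (q + 1) = 2 * q + 1 + 1 by ring, sum_range_succ, sum_range_succ, pow_add, pow_add,
      ih, pow_succ, pow_mul, pow_succ]
    simp [pow_succ]

theorem fac_shift {n : ℕ} (hn : p = 2 * n + 1) (u : ℕ) :
    (((n + u).factorial : ℕ) : ZMod p) * 2 ^ u =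
      (n.factorial : ℕ) * ∏ i ∈ range u, (2 * (i : ZMod p) + 1) := by
  induction u with
  | zero => simp
  | succ u ih =>
    rw [prod_range_succ, ← mul_assoc, ← ih, ← add_assoc, Nat.factorial_succ]
    push_cast
    linear_combination (((n + u).factorial : ℕ) : ZMod p) * 2 ^ u * two_n hn

theorem fac_shift' {n : ℕ} (hn : p = 2 * n + 1) (s : ℕ) :
    (((n + s).factorial : ℕ) : ZMod p) * 4 ^ s * (s.factorial : ℕ) =
      (n.factorial : ℕ) * ((2 * s).factorial : ℕ) := by
  induction s with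
  | zero => simp
  | succ s ih =>
    rw [← add_assoc, Nat.factorial_succ, Nat.factorial_succ s,
      show 2 * (s + 1) = 2 * s + 1 + 1 by ring, Nat.factorial_succ, Nat.factorial_succ]
    push_cast
    linear_combination (2 * (s : ZMod p) + 1 + 1) * (2 * (s : ZMod p) + 1) * ih +
      2 * ((s : ZMod p) + 1) * (((n + s).factorial : ℕ) : ZMod p) * 4 ^ s * (s.factorial : ℕ) *
        two_n hn

theorem central_eq {n : ℕ} (hn : p = 2 * n + 1) {s : ℕ} (hs : s ≤ n) :
    (4 : ZMod p) ^ s / (Nat.choose (2 * s) s : ZMod p) =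
      (s.factorial : ℕ) * (n.factorial : ℕ) / (((n + s).factorial : ℕ) : ZMod p) := by
  have h1 : ((Nat.choose (2 * s) s : ℕ) : ZMod p) * (s.factorial : ℕ) * (s.factorial : ℕ) =
      ((2 * s).factorial : ℕ) := by
    have := Nat.choose_mul_factorial_mul_factorial (n := 2 * s) (k := s) (by omega)
    rw [show 2 * s - s = s by omega] at this
    exact_mod_cast congrArg (Nat.cast : ℕ → ZMod p) this
  have h2 := fac_shift' hn s
  have h3 : (((2 * s).factorial : ℕ) : ZMod p) ≠ 0 := fac_ne_zero (by omega)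
  have h4 : (((n + s).factorial : ℕ) : ZMod p) ≠ 0 := fac_ne_zero (by omega)
  have h5 : ((s.factorial : ℕ) : ZMod p) ≠ 0 := fac_ne_zero (by omega)
  have h6 : ((Nat.choose (2 * s) s : ℕ) : ZMod p) ≠ 0 := by
    intro h; rw [h] at h1; apply h3; rw [← h1]; simp
  rw [div_eq_div_iff h6 h4]
  apply mul_right_cancel₀ h5
  linear_combination h2 - (n.factorial : ℕ) * h1

theorem choose_cast {N s : ℕ} (hN : N < p) (hs : s ≤ N) :
    ((N.choose s : ℕ) : ZMod p) =
      (N.factorial : ℕ) / (((s.factorial : ℕ) : ZMod p) * ((N - s).factorial : ℕ)) := by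
  have h1 := congrArg (Nat.cast : ℕ → ZMod p) (Nat.choose_mul_factorial_mul_factorial hs)
  push_cast at h1
  rw [eq_div_iff (mul_ne_zero (fac_ne_zero (by omega)) (fac_ne_zero (by omega)))]
  linear_combination h1

theorem sum_even {n : ℕ} (hn : p = 2 * n + 1) (f : ZMod p → ZMod p) (hf : ∀ y, f (-y) = f y) :
    ∑ y : ZMod p, f y = f 0 + 2 * ∑ j ∈ range n, f ((j : ZMod p) + 1) := by
  have h1 : ∑ y : ZMod p, f y = ∑ k ∈ range p, f (k : ZMod p) := by
    symm
    refine sum_bij' (fun k _ => (k : ZMod p)) (fun y _ => y.val) (fun _ _ => mem_univ _)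
      (fun y _ => mem_range.mpr (ZMod.val_lt y))
      (fun k hk => ZMod.val_natCast_of_lt (mem_range.mp hk))
      (fun y _ => ZMod.natCast_zmod_val y) (fun _ _ => rfl)
  have h2 : ∑ k ∈ range p, f (k : ZMod p) = ∑ k ∈ range (n + n + 1), f (k : ZMod p) := by
    congr 2; omega
  rw [h1, h2, sum_range_succ', sum_range_add, ← sum_range_reflect (fun x => f ((n + x + 1 : ℕ)))]
  have h3 : ∀ j ∈ range n, f ((n + (n - 1 - j) + 1 : ℕ) : ZMod p) = f ((j : ZMod p) + 1) := by
    intro j hj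
    have hj' := mem_range.mp hj
    rw [← hf ((j : ZMod p) + 1)]
    congr 1
    have h4 : ((n + (n - 1 - j) + 1 + (j + 1) : ℕ) : ZMod p) = 0 := by
      rw [show n + (n - 1 - j) + 1 + (j + 1) = p by omega]; exact ZMod.natCast_self p
    rw [Nat.cast_add] at h4
    push_cast at h4 ⊢
    linear_combination h4
  rw [sum_congr rfl h3]
  push_cast
  ring

theorem sum_sq_pow {n : ℕ} (hn : p = 2 * n + 1) (e : ℕ) :
    ∑ j ∈ range n, (((j : ZMod p) + 1) ^ 2) ^ e = if n ∣ e then (n : ZMod p) else 0 := by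
  have hne : ∀ j ∈ range n, (((j : ZMod p) + 1) ^ 2) ^ n = 1 := by
    intro j hj
    have hj' := mem_range.mp hj
    rw [← pow_mul]
    apply pow_two_n hn
    exact_mod_cast cast_ne_zero' (p := p) (a := j + 1) (by omega) (by omega)
  split_ifs with h
  · obtain ⟨c, rfl⟩ := h
    rw [sum_congr rfl (fun j hj => by rw [pow_mul, hne j hj, one_pow])]
    simp
  · have h0 := n_pos hn
    have hr : e % n < n := Nat.mod_lt _ h0
    have hr0 : e % n ≠ 0 := fun h' => h (Nat.dvd_of_mod_eq_zero h')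
    have h1 : ∀ j ∈ range n, (((j : ZMod p) + 1) ^ 2) ^ e = ((j : ZMod p) + 1) ^ (2 * (e % n)) := by
      intro j hj
      conv_lhs => rw [← Nat.div_add_mod e n, pow_add, pow_mul, hne j hj, one_pow, one_mul, ← pow_mul]
    rw [sum_congr rfl h1]
    have h2 := sum_even hn (fun y => y ^ (2 * (e % n))) (fun y => by rw [pow_mul, pow_mul]; simp)
    rw [FiniteField.sum_pow_lt_card_sub_one _ _ (by rw [ZMod.card]; omega)] at h2
    simp only [zero_pow (show 2 * (e % n) ≠ 0 by omega), zero_add] at h2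
    exact (mul_eq_zero.mp h2.symm).resolve_left (two_ne hn)

end Pool.Agent.Work.MP_dd0b6b_nt
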