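import Pool.Agent.Work.MP_dd0b6b_nt.Defs
import Pool.Agent.Work.MP_dd0b6b_nt.Fact

namespace Pool.Agent.Work.MP_dd0b6b_nt

open Finset

/-- hyperfactorial -/
def hyp (n : ℕ) : ℕ := ∏ k ∈ range n, (k + 1) ^ (k + 1)

theorem hyp_mul (n : ℕ) : hyp n * ∏ s ∈ range n, s.factorial = n.factorial ^ n := by
  induction n with
  | zero => simp [hyp]
  | succ n ih =>
    rw [hyp, prod_range_succ, prod_range_succ, ← hyp, Nat.factorial_succ, mul_pow,
      pow_succ n.factorial, ← ih]
    ring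

theorem prod_blocks {M : Type*} [CommMonoid M] (f : ℕ → M) (d L : ℕ) :
    ∏ k ∈ range (d * L), f k = ∏ i ∈ range L, ∏ c ∈ range d, f (d * i + c) := by
  induction L with
  | zero => simp
  | succ L ih => rw [Nat.mul_succ, prod_range_add, ih, prod_range_succ]

theorem hyp_split (d L : ℕ) : hyp (d * L) =
    (∏ c ∈ range d, (∏ i ∈ range L, (d * i + c + 1)) ^ (c + 1)) *
      (∏ c ∈ range d, ∏ i ∈ range L, (d * i + c + 1) ^ i) ^ d := by
  rw [hyp, prod_blocks, prod_comm, ← prod_pow, ← prod_mul_distrib]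
  refine prod_congr rfl fun c _ => ?_
  rw [← prod_pow, ← prod_pow, ← prod_mul_distrib]
  refine prod_congr rfl fun i _ => ?_
  ring

theorem desc_prod (M L : ℕ) :
    (∏ i ∈ range L, (M + L - i)) * M.factorial = (M + L).factorial := by
  induction L with
  | zero => simp
  | succ L ih =>
    rw [prod_range_succ', ← add_assoc, Nat.factorial_succ, ← ih]
    have : ∀ i ∈ range L, M + L + 1 - (i + 1) = M + L - i := fun i _ => by omega
    rw [prod_congr rfl this]
    simp only [Nat.sub_zero]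
    ring

/-- exponent attached to the factorial of index `a` -/
def gexp (a : ℕ) : ℤ := if Even a then ((a / 2 : ℕ) : ℤ) else -(((a + 1) / 2 : ℕ) : ℤ)

theorem pair_prod {K : Type*} [Field K] (G : ℕ → K) (k : ℕ) :
    ∏ c ∈ range k, (G (2 * c + 2) / G (2 * c + 1)) ^ (c + 1) =
      ∏ a ∈ range (2 * k + 1), G a ^ gexp a := by
  induction k with
  | zero => simp [gexp]
  | succ k ih =>
    rw [prod_range_succ, ih, show 2 * (k + 1) + 1 = 2 * k + 1 + 1 + 1 by ring,
      prod_range_succ _ (2 * k + 1 + 1), prod_range_succ _ (2 * k + 1)]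
    have h1 : gexp (2 * k + 1) = -((k + 1 : ℕ) : ℤ) := by
      rw [gexp, if_neg (by simp)]
      congr 2; omega
    have h2 : gexp (2 * k + 1 + 1) = ((k + 1 : ℕ) : ℤ) := by
      rw [gexp, if_pos ⟨k + 1, by ring⟩]
      congr 1; omega
    rw [h1, h2, zpow_neg, zpow_natCast, zpow_natCast, div_pow, div_eq_mul_inv]
    ring

theorem fold_prod {K : Type*} [Field K] (G : ℕ → K) (d : ℕ)
    (hr : ∀ a < d, G a * G (2 * d - a) = 1) (hd : G d = -1) :
    ∏ a ∈ range (2 * d + 1), G a ^ gexp a =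
      (-1) ^ ((d + 1) / 2) * (∏ a ∈ range d, G a ^ (if Even a then a else d - a)) *
        (∏ a ∈ range d, if Even a then (G a)⁻¹ else 1) ^ d := by
  rw [show 2 * d + 1 = d + (d + 1) by ring, prod_range_add, prod_range_succ',
    ← prod_range_reflect (fun j => G (d + (j + 1)) ^ gexp (d + (j + 1))), ← mul_assoc,
    ← prod_mul_distrib, mul_assoc ((-1 : K) ^ _), ← prod_pow, ← prod_mul_distrib, mul_comm]
  congr 1
  · rw [add_zero, hd, gexp]
    split_ifs with h
    · rw [zpow_natCast]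
      congr 1
      obtain ⟨c, rfl⟩ := h
      omega
    · rw [zpow_neg, zpow_natCast, ← inv_pow, inv_neg, inv_one]
  · refine prod_congr rfl fun a ha => ?_
    have ha' := mem_range.mp ha
    have h1 : d + (d - 1 - a + 1) = 2 * d - a := by omega
    have h0 : G a ≠ 0 := left_ne_zero_of_mul_eq_one (hr a ha')
    rw [h1, ← inv_eq_of_mul_eq_one_right (hr a ha'), inv_zpow', ← zpow_add₀ h0]
    by_cases h : Even a
    · have h' : Even (2 * d - a) := by
        obtain ⟨c, rfl⟩ := h
        exact ⟨d - c, by omega⟩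
      rw [if_pos h, if_pos h, gexp, gexp, if_pos h, if_pos h', inv_pow, ← zpow_natCast,
        ← zpow_natCast, ← zpow_neg, ← zpow_add₀ h0]
      congr 1
      obtain ⟨c, rfl⟩ := h
      omega
    · have h' : ¬ Even (2 * d - a) := by
        rintro ⟨c, hc⟩
        exact h ⟨d - c, by omega⟩
      rw [if_neg h, if_neg h, gexp, gexp, if_neg h, if_neg h', one_pow, mul_one, ← zpow_natCast]
      congr 1
      obtain ⟨c, rfl⟩ := Nat.not_even_iff_odd.mp h
      omega

variable {p : ℕ} [hp : Fact p.Prime]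

theorem block_prod {d L c : ℕ} (hn : p = 2 * (d * L) + 1) (hc : c < d) :
    ((∏ i ∈ range L, (d * i + c + 1) : ℕ) : ZMod p) =
      (-(d : ZMod p)) ^ L * ((((2 * c + 2) * L).factorial : ℕ) : ZMod p) /
        ((((2 * c + 1) * L).factorial : ℕ) : ZMod p) := by
  have hlt : (2 * c + 1) * L < p := by
    have : (2 * c + 1) * L ≤ (2 * d) * L := Nat.mul_le_mul_right _ (by omega)
    rw [mul_assoc] at this
    omega
  rw [eq_div_iff (fac_ne_zero hlt), show (2 * c + 2) * L = (2 * c + 1) * L + L by ring,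
    ← desc_prod, Nat.cast_mul, ← mul_assoc]
  congr 1
  rw [Nat.cast_prod, Nat.cast_prod, ← card_range L, ← prod_const, card_range, ← prod_mul_distrib]
  refine prod_congr rfl fun i hi => ?_
  have hi' := mem_range.mp hi
  rw [Nat.cast_sub (by omega)]
  have h2 := two_n hn
  push_cast at h2 ⊢
  linear_combination ((c : ZMod p) + 1) * h2

theorem hyp_sq {d L : ℕ} (hn : p = 2 * (d * L) + 1) (hev : Even (d * L)) :
    ∃ z : ZMod p, z ≠ 0 ∧ ((hyp (d * L) : ℕ) : ZMod p) ^ 2 =
      (-1) ^ ((d + 1) / 2) * ((d : ZMod p) ^ (d * L)) ^ (d + 1) * (blocks d L : ZMod p) *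
        z ^ (2 * d) := by
  set Fa : ℕ → ZMod p := fun a => (((a * L).factorial : ℕ) : ZMod p) with hFa
  have hle : ∀ a ≤ 2 * d, a * L < p := fun a ha => by
    have : a * L ≤ (2 * d) * L := Nat.mul_le_mul_right _ ha
    rw [mul_assoc] at this
    omega
  have hF0 : ∀ a ≤ 2 * d, Fa a ≠ 0 := fun a ha => fac_ne_zero (hle a ha)
  have hr : ∀ a < d, Fa a ^ 2 * Fa (2 * d - a) ^ 2 = 1 := fun a ha => by
    apply wilson_sq
    rw [← add_mul, show a + (2 * d - a) = 2 * d by omega, mul_assoc, hn]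
  have hd : Fa d ^ 2 = -1 := by
    obtain ⟨q, hq⟩ := hev
    have := half_fac_sq (p := p) (q := q) (by omega)
    rwa [show 2 * q = d * L by omega] at this
  have hfold := fold_prod (fun a => Fa a ^ 2) d hr hd
  rw [← pair_prod (fun a => Fa a ^ 2) d] at hfold
  set w : ℕ := ∏ c ∈ range d, ∏ i ∈ range L, (d * i + c + 1) ^ i with hw
  have hw0 : (w : ZMod p) ≠ 0 := by
    rw [hw, Nat.cast_prod, prod_ne_zero_iff]
    intro c hc
    rw [Nat.cast_prod, prod_ne_zero_iff]
    intro i hi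
    rw [Nat.cast_pow]
    apply pow_ne_zero
    apply cast_ne_zero' (by omega)
    have h1 : d * (i + 1) ≤ d * L := Nat.mul_le_mul_left _ (mem_range.mp hi)
    have h2 := mem_range.mp hc
    rw [mul_add] at h1
    omega
  refine ⟨(w : ZMod p) * ∏ a ∈ range d, if Even a then (Fa a)⁻¹ else 1, ?_, ?_⟩
  · refine mul_ne_zero hw0 (prod_ne_zero_iff.mpr fun a ha => ?_)
    split_ifs
    · exact inv_ne_zero (hF0 a (by have := mem_range.mp ha; omega))
    · exact one_ne_zero
  have hb : (blocks d L : ZMod p) = ∏ a ∈ range d, (Fa a ^ 2) ^ (if Even a then a else d - a) := by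
    rw [blocks, Nat.cast_prod]
    refine prod_congr rfl fun a _ => ?_
    rw [Nat.cast_pow, ← pow_mul]
    split_ifs <;> rfl
  have hz : (∏ a ∈ range d, if Even a then (Fa a)⁻¹ else 1) ^ 2 =
      ∏ a ∈ range d, if Even a then (Fa a ^ 2)⁻¹ else 1 := by
    rw [← prod_pow]
    refine prod_congr rfl fun a _ => ?_
    split_ifs <;> simp
  have hsum : ∀ k : ℕ, 2 * ∑ c ∈ range k, (c + 1) = k * (k + 1) := by
    intro k
    induction k with
    | zero => simp
    | succ k ih => rw [sum_range_succ, mul_add, ih]; ring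
  have hP : ((∏ c ∈ range d, (∏ i ∈ range L, (d * i + c + 1)) ^ (c + 1) : ℕ) : ZMod p) ^ 2 =
      ((d : ZMod p) ^ (d * L)) ^ (d + 1) *
        ∏ c ∈ range d, (Fa (2 * c + 2) ^ 2 / Fa (2 * c + 1) ^ 2) ^ (c + 1) := by
    have h1 : ((d : ZMod p) ^ (d * L)) ^ (d + 1) =
        ∏ c ∈ range d, (((-(d : ZMod p)) ^ L) ^ 2) ^ (c + 1) := by
      rw [prod_pow_eq_pow_sum, ← pow_mul, ← pow_mul, ← pow_mul, hsum, ← mul_assoc,
        mul_comm L d, Even.neg_pow (hev.mul_right _), pow_mul]
    rw [h1, Nat.cast_prod, ← prod_pow, ← prod_mul_distrib]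
    refine prod_congr rfl fun c hc => ?_
    rw [Nat.cast_pow, block_prod hn (mem_range.mp hc), ← mul_pow, ← pow_mul, mul_comm (c + 1) 2,
      pow_mul]
    congr 1
    simp only [hFa]
    ring
  rw [hyp_split, Nat.cast_mul, mul_pow, hP, hfold, hb, mul_pow, pow_mul _ 2 d, pow_mul _ 2 d, hz,
    ← hw, Nat.cast_pow]
  ring

end Pool.Agent.Work.MP_dd0b6b_nt
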