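import Mathlib.LinearAlgebra.Matrix.SchurComplement
import Mathlib.Data.Rat.Lemmas
import Mathlib.Algebra.Order.Ring.Rat
import Mathlib.Tactic

namespace Pool.Agent.Work.MP_dd0b6b_nt

open Matrix

theorem cayley_rat : ∀ (k : ℕ) (ι : Type) [Fintype ι] [DecidableEq ι], Fintype.card ι = k →
    ∀ A : Matrix ι ι ℚ, Aᵀ = -A → IsSquare A.det := by
  intro k
  induction k using Nat.strong_induction_on with
  | _ k ih =>
  intro ι _ _ hk A hA
  have hsk : ∀ a b, A b a = -A a b := fun a b => by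
    have := congrFun (congrFun hA a) b
    simpa using this
  have hdiag : ∀ a, A a a = 0 := fun a => by
    have := hsk a a
    linarith
  rcases isEmpty_or_nonempty ι with he | ⟨⟨i⟩⟩
  · simp
  by_cases hrow : ∀ j, A i j = 0
  · rw [det_eq_zero_of_row_eq_zero i hrow]; exact ⟨0, by simp⟩
  push Not at hrow
  obtain ⟨j, hj⟩ := hrow
  have hij : i ≠ j := by
    rintro rfl
    exact hj (hdiag _)
  let P : ι → Prop := fun x => x = i ∨ x = j
  let e2 : Fin 2 ≃ {x // P x} :=
    { toFun := fun a => if a = 0 then ⟨i, Or.inl rfl⟩ else ⟨j, Or.inr rfl⟩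
      invFun := fun x => if x.1 = i then 0 else 1
      left_inv := by
        intro a
        fin_cases a
        · simp
        · simp [hij.symm]
      right_inv := by
        rintro ⟨x, rfl | rfl⟩
        · simp
        · simp [hij.symm] }
  let e : Fin 2 ⊕ {x // ¬ P x} ≃ ι :=
    (Equiv.sumCongr e2 (Equiv.refl _)).trans (Equiv.sumCompl P)
  set M := A.submatrix e e with hM
  have hdet : A.det = M.det := (det_submatrix_equiv_self e A).symm
  have hMsk : ∀ a b, M b a = -M a b := fun a b => hsk _ _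
  set B := M.toBlocks₁₁ with hB
  have hB00 : B 0 0 = 0 := hdiag _
  have hB11 : B 1 1 = 0 := hdiag _
  have hB01 : B 0 1 = A i j := by
    simp [hB, hM, toBlocks₁₁, e, e2]
  have hB10 : B 1 0 = -A i j := by
    rw [← hB01]; exact hMsk _ _
  have hBdet : B.det = A i j * A i j := by
    rw [det_fin_two, hB00, hB11, hB01, hB10]; ring
  have hBu : IsUnit B.det := by
    rw [hBdet]; exact (mul_ne_zero hj hj).isUnit
  let _ : Invertible B := invertibleOfIsUnitDet B hBu
  have hBT : Bᵀ = -B := by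
    ext a b; exact hMsk _ _
  have hC : M.toBlocks₂₁ = -(M.toBlocks₁₂)ᵀ := by
    ext a b; exact hMsk _ _
  have hE : (M.toBlocks₂₂)ᵀ = -M.toBlocks₂₂ := by
    ext a b; exact hMsk _ _
  have hinvT : (⅟B)ᵀ = -⅟B := by
    have h1 : (⅟B)ᵀ * Bᵀ = 1 := by rw [← transpose_mul, mul_invOf_self, transpose_one]
    rw [hBT] at h1
    have h2 : (-(⅟B)ᵀ) * B = 1 := by rw [← h1]; simp
    have h3 : -(⅟B)ᵀ = ⅟B := by
      calc -(⅟B)ᵀ = (-(⅟B)ᵀ) * B * ⅟B := by rw [Matrix.mul_assoc, mul_invOf_self, Matrix.mul_one]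
        _ = ⅟B := by rw [h2, Matrix.one_mul]
    exact neg_eq_iff_eq_neg.mp h3
  have hcard : Fintype.card {x // ¬ P x} < k := by
    have := Fintype.card_congr e
    rw [Fintype.card_sum, Fintype.card_fin, hk] at this
    omega
  have hS := ih _ hcard {x // ¬ P x} rfl
    (M.toBlocks₂₂ - M.toBlocks₂₁ * ⅟B * M.toBlocks₁₂) (by
      rw [hC, transpose_sub, transpose_mul, transpose_mul, hE, hinvT]
      simp [Matrix.mul_assoc]
      abel)
  rw [hdet, ← fromBlocks_toBlocks M, det_fromBlocks₁₁, hBdet]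
  exact (IsSquare.mul_self _).mul hS

theorem cayley_int {k : ℕ} (A : Matrix (Fin k) (Fin k) ℤ) (hA : Aᵀ = -A) :
    Int.sqrt A.det ^ 2 = A.det := by
  have h := cayley_rat k (Fin k) (by simp) (A.map (Int.castRingHom ℚ)) (by
    ext a b
    have := congrFun (congrFun hA a) b
    simp only [transpose_apply, neg_apply] at this
    simp [this])
  rw [← RingHom.mapMatrix_apply, ← RingHom.map_det] at h
  obtain ⟨r, hr⟩ := (Rat.isSquare_intCast_iff.mp h)
  rw [hr, Int.sqrt_eq, sq, Int.natAbs_mul_self']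

end Pool.Agent.Work.MP_dd0b6b_nt
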