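import Pool.Agent.Work.MP_dd0b6b_nt.Main

/-! The case `d = 3` of `main`: the cubic character of the square root is that of
`kappa * 2 ^ ((p - 1) / 3)`. -/

namespace Pool.Agent.Work.MP_dd0b6b_nt

open Finset

variable {p : ℕ} [hp : Fact p.Prime]

theorem cubic (hp12 : p % 12 = 1) (m h : ℕ) (hh : h ≤ (p - 1) / 4)
    (hm : m + 1 ≡ 2 * h [MOD p - 1]) :
    ∃ y : ZMod p, y ≠ 0 ∧ ((Int.sqrt (sunDet m p) : ℤ) : ZMod p) =
      kappa (ZMod p) h * 2 ^ ((p - 1) / 3) * y ^ 3 := by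
  obtain ⟨t, ht⟩ : ∃ t, p = 12 * t + 1 := ⟨p / 12, by omega⟩
  have h2p := hp.out.two_le
  have hq : p = 2 * (2 * (3 * t)) + 1 := by omega
  obtain ⟨z, hz, h1⟩ := main (p := p) (by omega) m h 3 (by omega) hm ⟨2 * t, by omega⟩
  set A : ZMod p := (((2 * t).factorial : ℕ) : ZMod p) with hA
  set B : ZMod p := (((2 * (2 * t)).factorial : ℕ) : ZMod p) with hB
  set i : ZMod p := (((2 * (3 * t)).factorial : ℕ) : ZMod p) with hi
  set τ : ZMod p := 2 ^ ((p - 1) / 3) with hτ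
  have hi2 : i ^ 2 = -1 := half_fac_sq hq
  have hb : (blocks 3 ((p - 1) / 2 / 3) : ZMod p) = (A ^ 2 * B ^ 2) ^ 2 := by
    rw [show (p - 1) / 2 / 3 = 2 * t by omega]
    simp only [blocks, prod_range_succ, range_zero, prod_empty]
    norm_num [hA, hB]
    ring
  have hτ3 : τ ^ 3 = 1 := by
    rw [hτ, ← pow_mul, show (p - 1) / 3 * 3 = 2 * (2 * (3 * t)) by omega]
    exact pow_two_n hq (two_ne hq)
  have hdup := fac_shift' hq (2 * t)
  have h4 : (4 : ZMod p) ^ (2 * t) = τ := by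
    rw [hτ, show (p - 1) / 3 = 2 * (2 * t) by omega, pow_mul (2 : ZMod p) 2]; norm_num
  have hw := wilson_sq (p := p) (2 * (3 * t) + 2 * t) (2 * (2 * t)) (by omega)
  rw [h4, ← hA, ← hB, ← hi] at hdup
  rw [← hB] at hw
  set C : ZMod p := (((2 * (3 * t) + 2 * t).factorial : ℕ) : ZMod p)
  have hAB : A ^ 2 * B ^ 2 = -(τ * B ^ 6) := by
    have e1 : C ^ 2 * τ ^ 2 * A ^ 2 = -B ^ 2 := by
      linear_combination (C * τ * A + i * B) * hdup + B ^ 2 * hi2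
    linear_combination τ * B ^ 4 * e1 - A ^ 2 * B ^ 2 * τ ^ 3 * hw - A ^ 2 * B ^ 2 * hτ3
  have hB0 : B ≠ 0 := fac_ne_zero (by omega)
  have hL : ((∏ j ∈ range (2 * h - 1), (2 * (j : ℤ) + 1) : ℤ) : ZMod p) ≠ 0 := by
    rw [Int.cast_prod, prod_ne_zero_iff]
    intro j hj
    have := mem_range.mp hj
    exact_mod_cast cast_ne_zero' (p := p) (a := 2 * j + 1) (by omega) (by omega)
  have h3 : (((3 : ℕ) : ℤ) : ZMod p) ≠ 0 := by
    exact_mod_cast cast_ne_zero' (p := p) (a := 3) (by omega) (by omega)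
  obtain ⟨e, he4, he⟩ : ∃ e : ZMod p, e ^ 4 = 1 ∧ (-1) ^ (h + 1 + (3 + 1) / 2) *
      (legendreSym p (3 : ℕ) : ZMod p) ^ (3 + 1) *
      (legendreSym p (∏ j ∈ range (2 * h - 1), (2 * (j : ℤ) + 1)) : ZMod p) = e ^ 2 := by
    have hi4 : i ^ 4 = 1 := by linear_combination (i ^ 2 - 1) * hi2
    rcases neg_one_pow_eq_or (ZMod p) (h + 1 + (3 + 1) / 2) with a | a <;>
    rcases legendreSym.eq_one_or_neg_one p h3 with b | b <;>
    rcases legendreSym.eq_one_or_neg_one p hL with c | c <;> rw [a, b, c] <;> first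
      | (refine ⟨1, by norm_num, ?_⟩; norm_num; done)
      | (refine ⟨i, hi4, ?_⟩; rw [hi2]; norm_num)
  have he0 : e ≠ 0 := by rintro rfl; simp at he4
  rw [he, hb, hAB] at h1
  have h5 : ((Int.sqrt (sunDet m p) : ℤ) : ZMod p) ^ 2 =
      (kappa (ZMod p) h * τ * (e ^ 3 * B ^ 2 * z) ^ 3) ^ 2 := by
    rw [h1]
    linear_combination (-(kappa (ZMod p) h * τ * B ^ 6 * z ^ 3 * e) ^ 2 *
      (e ^ 12 + e ^ 8 + e ^ 4 + 1)) * he4
  have hy : e ^ 3 * B ^ 2 * z ≠ 0 :=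
    mul_ne_zero (mul_ne_zero (pow_ne_zero _ he0) (pow_ne_zero _ hB0)) hz
  rcases sq_eq_sq_iff_eq_or_eq_neg.mp h5 with h6 | h6
  · exact ⟨_, hy, h6⟩
  · exact ⟨-(e ^ 3 * B ^ 2 * z), neg_ne_zero.mpr hy, by rw [h6]; ring⟩

end Pool.Agent.Work.MP_dd0b6b_nt
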