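import Mathlib.NumberTheory.LegendreSymbol.JacobiSymbol
import Mathlib.LinearAlgebra.Matrix.Determinant.Basic

namespace Pool.Agent.Work.MP_dd0b6b_nt

open Finset

/-- The determinant `D^(m)_n` of the problem file (rows and columns `j, k = 1, ..., (n-1)/2`). -/
def sunDet (m n : ℕ) : ℤ :=
  (Matrix.of fun j k : Fin ((n - 1) / 2) =>
    ((((j : ℕ) : ℤ) + 1) ^ 2 - (((k : ℕ) : ℤ) + 1) ^ 2) ^ m *
      jacobiSym ((((j : ℕ) : ℤ) + 1) ^ 2 - (((k : ℕ) : ℤ) + 1) ^ 2) n).det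

/-- The product over `s < h`, `t = 2h-1-s`, of `4^s / C(2s,s) + 4^t / C(2t,t)`, in a field. -/
def kappa (F : Type*) [Field F] (h : ℕ) : F :=
  ∏ s ∈ range h, ((4 : F) ^ s / (Nat.choose (2 * s) s : F) +
    (4 : F) ^ (2 * h - 1 - s) / (Nat.choose (2 * (2 * h - 1 - s)) (2 * h - 1 - s) : F))

/-- The product over `a < d` of `(a L)!` to the power `2a` (`a` even) or `2(d-a)` (`a` odd). -/
def blocks (d L : ℕ) : ℕ :=
  ∏ a ∈ range d, (a * L).factorial ^ (if Even a then 2 * a else 2 * (d - a))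

end Pool.Agent.Work.MP_dd0b6b_nt
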