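import Mathlib.LinearAlgebra.Vandermonde
import Mathlib.GroupTheory.Perm.Fin
import Mathlib.Tactic

namespace Pool.Agent.Work.MP_dd0b6b_nt

open Matrix Finset

/-- lacunary binomial sum -/
def lac (n N s : ℕ) : ℕ := ∑ i ∈ range (N + 1), if i % n = s then N.choose i else 0

theorem rot_pow_val (k N : ℕ) (t : Fin (k + 1)) :
    (((finRotate (k + 1)) ^ N) t).val = (t.val + N) % (k + 1) := by
  induction N with
  | zero => simp [Nat.mod_eq_of_lt t.2]
  | succ N ih =>
    rw [pow_succ', Equiv.Perm.mul_apply, finRotate_apply, Fin.val_add, ih, Fin.val_one',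
      Nat.add_mod_mod, Nat.mod_add_mod, add_assoc]

theorem pow_mod_of_pow_eq_one {F : Type*} [Monoid F] {x : F} {n : ℕ} (h : x ^ n = 1) (e : ℕ) :
    x ^ e = x ^ (e % n) := by
  conv_lhs => rw [← Nat.div_add_mod e n, pow_add, pow_mul, h, one_pow, one_mul]

theorem det_pow_sub {F : Type*} [Field F] (k N : ℕ) (hk : Odd k) (hN : Odd N)
    (x : Fin (k + 1) → F) (hinj : Function.Injective x) (hx : ∀ j, x j ^ (k + 1) = 1)
    (hsum : ∀ e, ∑ j, x j ^ e = if (k + 1) ∣ e then ((k + 1 : ℕ) : F) else 0) :
    (Matrix.of fun a b => (x a - x b) ^ N).det =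
      -((((k + 1 : ℕ) : F)) ^ (k + 1) * (-1) ^ (∑ t ∈ range (k + 1), t) *
        ∏ s ∈ range (k + 1), (lac (k + 1) N s : F)) := by
  set σ : Equiv.Perm (Fin (k + 1)) := (finRotate (k + 1)) ^ N with hσ
  have hV : (vandermonde x).det ≠ 0 := det_vandermonde_ne_zero_iff.mpr hinj
  have key : (Matrix.of fun a b => (x a - x b) ^ N) * vandermonde x =
      (vandermonde x).submatrix id σ *
        diagonal (fun t : Fin (k + 1) =>
          ((k + 1 : ℕ) : F) * (-1) ^ t.val * (lac (k + 1) N (σ t).val : F)) := by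
    ext a t
    rw [mul_diagonal, Matrix.mul_apply]
    simp only [of_apply, vandermonde_apply, submatrix_apply, id]
    have h1 : ∀ b, (x a - x b) ^ N * x b ^ t.val =
        ∑ i ∈ range (N + 1), (x a ^ i * (-1) ^ (N - i) * (N.choose i : F)) * x b ^ (N - i + t.val) := by
      intro b
      rw [sub_eq_add_neg, add_pow, sum_mul]
      refine sum_congr rfl fun i _ => ?_
      rw [neg_pow (x b), pow_add]; ring
    simp_rw [h1]
    rw [sum_comm]
    simp_rw [← mul_sum, hsum]
    rw [lac, Nat.cast_sum, mul_sum, mul_sum]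
    refine sum_congr rfl fun i hi => ?_
    have hiN : i ≤ N := Nat.lt_succ_iff.mp (mem_range.mp hi)
    have hσt : (σ t).val = (t.val + N) % (k + 1) := rot_pow_val k N t
    have hiff : (k + 1) ∣ (N - i + t.val) ↔ i % (k + 1) = (σ t).val := by
      rw [hσt]
      have h2 : N - i + t.val = (t.val + N) - i := by omega
      rw [h2]
      exact (Nat.modEq_iff_dvd' (by omega)).symm
    by_cases hd : (k + 1) ∣ (N - i + t.val)
    · rw [if_pos hd, if_pos (hiff.mp hd), ← hiff.mp hd, ← pow_mod_of_pow_eq_one (hx a)]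
      have hpar : (-1 : F) ^ (N - i) = (-1) ^ t.val := by
        have hev : Even (N - i + t.val) := by
          obtain ⟨c, hc⟩ := hd
          rw [hc]; exact (hk.add_one).mul_right c
        rcases Nat.even_or_odd t.val with ht | ht
        · rw [ht.neg_one_pow, ((Nat.even_add.mp hev).mpr ht).neg_one_pow]
        · have : Odd (N - i) := by
            rcases Nat.even_or_odd (N - i) with h | h
            · exact absurd ((Nat.even_add.mp hev).mp h) (Nat.not_even_iff_odd.mpr ht)
            · exact h
          rw [ht.neg_one_pow, this.neg_one_pow]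
      rw [hpar]; ring
    · rw [if_neg hd, if_neg (fun h => hd (hiff.mpr h))]; simp
  have hdet := congrArg det key
  rw [det_mul, det_mul, det_permute', det_diagonal] at hdet
  have hsign : ((Equiv.Perm.sign σ : ℤˣ) : ℤ) = -1 := by
    rw [hσ, map_pow, sign_finRotate]
    simp [hk.neg_one_pow, hN.neg_one_pow]
  have hprod : ∏ t : Fin (k + 1), (((k + 1 : ℕ) : F) * (-1) ^ t.val * (lac (k + 1) N (σ t).val : F)) =
      (((k + 1 : ℕ) : F)) ^ (k + 1) * (-1) ^ (∑ t ∈ range (k + 1), t) *
        ∏ s ∈ range (k + 1), (lac (k + 1) N s : F) := by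
    rw [prod_mul_distrib, prod_mul_distrib, prod_const, card_univ, Fintype.card_fin,
      prod_pow_eq_pow_sum, Equiv.prod_comp σ (fun s => (lac (k + 1) N s.val : F)),
      Fin.prod_univ_eq_prod_range (fun s => (lac (k + 1) N s : F)),
      Fin.sum_univ_eq_sum_range (fun s => s)]
  rw [hprod] at hdet
  apply mul_right_cancel₀ hV
  rw [hdet, hsign]
  push_cast
  ring

theorem lac_eq (n N s : ℕ) (hs : s < n) (hN : N < 2 * n) :
    lac n N s = N.choose s + N.choose (s + n) := by
  have h1 : ∀ i ∈ range (N + 1), (if i % n = s then N.choose i else 0) =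
      (if i = s then N.choose i else 0) + (if i = s + n then N.choose i else 0) := by
    intro i hi
    have hi' : i < 2 * n := by have := mem_range.mp hi; omega
    by_cases hin : i < n
    · rw [Nat.mod_eq_of_lt hin]
      have : i ≠ s + n := by omega
      simp [this]
    · have hmod : i % n = i - n := by
        rw [Nat.mod_eq_sub_mod (by omega), Nat.mod_eq_of_lt (by omega)]
      rw [hmod]
      have h2 : i ≠ s := by omega
      have h3 : (i - n = s) ↔ (i = s + n) := by omega
      simp [h2, h3]
  rw [lac, sum_congr rfl h1, sum_add_distrib, sum_ite_eq', sum_ite_eq']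
  congr 1
  · split_ifs with h
    · rfl
    · rw [Nat.choose_eq_zero_of_lt (by simpa using h)]
  · split_ifs with h
    · rfl
    · rw [Nat.choose_eq_zero_of_lt (by simpa using h)]

end Pool.Agent.Work.MP_dd0b6b_nt
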