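import Pool.Agent.Work.MP_dd0b6b_nt.Blocks
import Pool.Agent.Work.MP_dd0b6b_nt.Det
import Pool.Agent.Work.MP_dd0b6b_nt.Cayley

namespace Pool.Agent.Work.MP_dd0b6b_nt

open Finset Matrix

variable {p : ℕ} [hp : Fact p.Prime]

theorem det_pow_sub' {F : Type*} [Field F] (n N : ℕ) (h0 : 0 < n) (hn : Even n) (hN : Odd N)
    (x : Fin n → F) (hinj : Function.Injective x) (hx : ∀ j, x j ^ n = 1)
    (hsum : ∀ e, ∑ j, x j ^ e = if n ∣ e then (n : F) else 0) :
    (Matrix.of fun a b => (x a - x b) ^ N).det =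
      -((n : F) ^ n * (-1) ^ (∑ t ∈ range n, t) * ∏ s ∈ range n, (lac n N s : F)) := by
  obtain ⟨k, rfl⟩ : ∃ k, n = k + 1 := ⟨n - 1, by omega⟩
  exact det_pow_sub k N (by simpa [Nat.even_add_one] using hn) hN x hinj hx hsum

theorem pow_congr {n a b : ℕ} (hn : p = 2 * n + 1) (ha : 0 < a) (hb : 0 < b)
    (h : a ≡ b [MOD 2 * n]) (y : ZMod p) : y ^ a = y ^ b := by
  by_cases hy : y = 0
  · rw [hy, zero_pow ha.ne', zero_pow hb.ne']
  · rw [pow_mod_of_pow_eq_one (pow_two_n hn hy) a, pow_mod_of_pow_eq_one (pow_two_n hn hy) b, h]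

theorem det_mod {q m N : ℕ} (hq : p = 2 * (2 * q) + 1) (hN : Odd N) (hN2 : N < 2 * (2 * q))
    (hm : m + 2 * q ≡ N [MOD 2 * (2 * q)]) :
    ((sunDet m p : ℤ) : ZMod p) =
      -∏ s ∈ range (2 * q), ((N.choose s : ZMod p) + (N.choose (s + 2 * q) : ZMod p)) := by
  have hn : (p - 1) / 2 = 2 * q := by omega
  have h0 := n_pos hq
  set x : Fin ((p - 1) / 2) → ZMod p := fun j => (((j : ℕ) : ZMod p) + 1) ^ 2 with hx
  have h1 : ((sunDet m p : ℤ) : ZMod p) = (Matrix.of fun a b => (x a - x b) ^ N).det := by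
    rw [sunDet]
    change (Int.castRingHom (ZMod p)) _ = _
    rw [RingHom.map_det]
    congr 1
    ext a b
    simp only [RingHom.mapMatrix_apply, map_apply, of_apply, eq_intCast]
    rw [← jacobiSym.legendreSym.to_jacobiSym, Int.cast_mul, legendreSym.eq_pow, Int.cast_pow,
      ← pow_add, show p / 2 = 2 * q by omega, pow_congr hq (by omega) hN.pos hm]
    simp [hx]
  have hp' : p = 2 * ((p - 1) / 2) + 1 := by omega
  rw [h1, det_pow_sub' _ N (by omega) ⟨q, by omega⟩ hN x]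
  · rw [hn, n_pow_n hq, sign_sum, ← mul_pow]
    simp only [mul_neg, mul_one, neg_neg, one_pow, one_mul]
    congr 1
    refine prod_congr rfl fun s hs => ?_
    rw [lac_eq _ _ _ (mem_range.mp hs) hN2, Nat.cast_add]
  · intro a b hab
    simp only [hx] at hab
    have ha := a.2
    have hb := b.2
    have h2 : (((a : ℕ) : ZMod p) - ((b : ℕ) : ZMod p)) * (((a : ℕ) + (b : ℕ) + 2 : ℕ) : ZMod p) = 0 := by
      push_cast
      linear_combination hab
    rcases mul_eq_zero.mp h2 with h3 | h3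
    · apply Fin.ext
      have h4 := (ZMod.natCast_eq_natCast_iff' _ _ _).mp (sub_eq_zero.mp h3)
      rwa [Nat.mod_eq_of_lt (by omega), Nat.mod_eq_of_lt (by omega)] at h4
    · exact absurd h3 (cast_ne_zero' (by omega) (by omega))
  · intro j
    have hj := j.2
    rw [hx, ← pow_mul]
    apply pow_two_n hp'
    exact_mod_cast cast_ne_zero' (p := p) (a := j + 1) (by omega) (by omega)
  · intro e
    rw [← sum_sq_pow hp' e]
    exact Fin.sum_univ_eq_sum_range (fun j => ((((j : ℕ) : ZMod p) + 1) ^ 2) ^ e) _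

theorem kappa_sq (F : Type*) [Field F] (h : ℕ) : kappa F h ^ 2 =
    ∏ s ∈ range (2 * h), ((4 : F) ^ s / (Nat.choose (2 * s) s : F) +
      (4 : F) ^ (2 * h - 1 - s) / (Nat.choose (2 * (2 * h - 1 - s)) (2 * h - 1 - s) : F)) := by
  rw [show range (2 * h) = range (h + h) by rw [two_mul], prod_range_add, sq, kappa]
  congr 1
  rw [← prod_range_reflect]
  refine prod_congr rfl fun s hs => ?_
  have hs' := mem_range.mp hs
  rw [show 2 * h - 1 - (h - 1 - s) = h + s by omega, show 2 * h - 1 - (h + s) = h - 1 - s by omega,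
    add_comm]

theorem prod_lac {n h : ℕ} (hn : p = 2 * n + 1) (hh : 2 * h ≤ n) :
    (∏ s ∈ range n, (((n + 2 * h - 1).choose s : ZMod p) +
        ((n + 2 * h - 1).choose (s + n) : ZMod p))) *
      ((n.factorial : ℕ) : ZMod p) ^ (2 * h) * (∏ s ∈ range n, ((s.factorial : ℕ) : ZMod p)) ^ 2 =
    (((n + 2 * h - 1).factorial : ℕ) : ZMod p) ^ n * kappa (ZMod p) h ^ 2 := by
  have h0 := n_pos hn
  obtain ⟨r, hr⟩ : ∃ r, n = 2 * h + r := ⟨n - 2 * h, by omega⟩
  set N := n + 2 * h - 1 with hN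
  have hrange : range n = range (2 * h + r) := by rw [hr]
  have hA : (∏ s ∈ range (2 * h), ((N.choose s : ZMod p) + (N.choose (s + n) : ZMod p))) *
      ((n.factorial : ℕ) : ZMod p) ^ (2 * h) *
        (∏ s ∈ range (2 * h), ((s.factorial : ℕ) : ZMod p)) ^ 2 =
      ((N.factorial : ℕ) : ZMod p) ^ (2 * h) * kappa (ZMod p) h ^ 2 := by
    rw [kappa_sq, sq]
    nth_rewrite 2 [← prod_range_reflect (fun s => ((s.factorial : ℕ) : ZMod p))]
    rw [← card_range (2 * h), ← prod_const, ← prod_const, card_range, ← prod_mul_distrib,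
      ← prod_mul_distrib, ← prod_mul_distrib, ← prod_mul_distrib]
    refine prod_congr rfl fun s hs => ?_
    have hs' := mem_range.mp hs
    rw [central_eq hn (by omega), central_eq hn (by omega), choose_cast (by omega) (by omega),
      choose_cast (by omega) (by omega), show N - s = n + (2 * h - 1 - s) by omega,
      show N - (s + n) = 2 * h - 1 - s by omega, add_comm s n]
    have a1 : ((s.factorial : ℕ) : ZMod p) ≠ 0 := fac_ne_zero (by omega)
    have a2 : (((2 * h - 1 - s).factorial : ℕ) : ZMod p) ≠ 0 := fac_ne_zero (by omega)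
    have a3 : (((n + s).factorial : ℕ) : ZMod p) ≠ 0 := fac_ne_zero (by omega)
    have a4 : (((n + (2 * h - 1 - s)).factorial : ℕ) : ZMod p) ≠ 0 := fac_ne_zero (by omega)
    field_simp
    ring
  have hB : (∏ s ∈ range r, ((N.choose (2 * h + s) : ZMod p) +
      (N.choose (2 * h + s + n) : ZMod p))) *
        (∏ s ∈ range r, (((2 * h + s).factorial : ℕ) : ZMod p)) ^ 2 =
      ((N.factorial : ℕ) : ZMod p) ^ r := by
    rw [sq]
    nth_rewrite 2 [← prod_range_reflect (fun s => (((2 * h + s).factorial : ℕ) : ZMod p))]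
    nth_rewrite 5 [← card_range r]
    rw [← prod_const, ← prod_mul_distrib, ← prod_mul_distrib]
    refine prod_congr rfl fun s hs => ?_
    have hs' := mem_range.mp hs
    rw [Nat.choose_eq_zero_of_lt (show N < 2 * h + s + n by omega),
      choose_cast (by omega) (by omega), show N - (2 * h + s) = 2 * h + (r - 1 - s) by omega]
    have a1 : (((2 * h + s).factorial : ℕ) : ZMod p) ≠ 0 := fac_ne_zero (by omega)
    have a2 : (((2 * h + (r - 1 - s)).factorial : ℕ) : ZMod p) ≠ 0 := fac_ne_zero (by omega)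
    field_simp
    simp
  have hpow : ((N.factorial : ℕ) : ZMod p) ^ n =
      ((N.factorial : ℕ) : ZMod p) ^ (2 * h) * ((N.factorial : ℕ) : ZMod p) ^ r := by
    rw [← pow_add, ← hr]
  rw [hrange, prod_range_add, prod_range_add, hpow, ← hB]
  linear_combination (∏ s ∈ range r, ((N.choose (2 * h + s) : ZMod p) +
      (N.choose (2 * h + s + n) : ZMod p))) *
        (∏ s ∈ range r, (((2 * h + s).factorial : ℕ) : ZMod p)) ^ 2 * hA

theorem fac_pow {q h : ℕ} (hq : p = 2 * (2 * q) + 1) :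
    (((2 * q + 2 * h - 1).factorial : ℕ) : ZMod p) ^ (2 * q) =
      (legendreSym p (∏ i ∈ range (2 * h - 1), (2 * (i : ℤ) + 1)) : ZMod p) := by
  have h0 := n_pos hq
  have hf : (((2 * q).factorial : ℕ) : ZMod p) ^ (2 * q) = (-1) ^ q := by
    rw [pow_mul, half_fac_sq hq]
  have hu : ((-1 : ZMod p) ^ q) ≠ 0 := pow_ne_zero _ (neg_ne_zero.mpr one_ne_zero)
  rw [legendreSym.eq_pow, show p / 2 = 2 * q by omega]
  apply mul_left_cancel₀ hu
  rcases Nat.eq_zero_or_pos h with rfl | hpos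
  · simp only [mul_zero, add_zero, Nat.zero_sub, range_zero, prod_empty, Int.cast_one, one_pow,
      mul_one]
    nth_rewrite 1 [← n_pow_n hq]
    rw [← mul_pow, ← Nat.cast_mul, Nat.mul_factorial_pred h0.ne', hf]
  · have h1 := congrArg (· ^ (2 * q)) (fac_shift hq (2 * h - 1))
    simp only [mul_pow] at h1
    rw [← pow_mul (2 : ZMod p), mul_comm (2 * h - 1), pow_mul (2 : ZMod p), two_pow_n hq, hf,
      ← pow_mul, mul_comm q, pow_mul _ (2 * h - 1) q,
      Odd.neg_one_pow (show Odd (2 * h - 1) from ⟨h - 1, by omega⟩)] at h1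
    rw [show 2 * q + 2 * h - 1 = 2 * q + (2 * h - 1) by omega]
    push_cast
    linear_combination h1

theorem det_hyp {q m h : ℕ} (hq : p = 2 * (2 * q) + 1) (hh : h < 2 * q)
    (hm : m + 1 ≡ 2 * h [MOD 2 * (2 * q)]) :
    ((sunDet m p : ℤ) : ZMod p) = (-1) ^ (h + 1) *
      (legendreSym p (∏ i ∈ range (2 * h - 1), (2 * (i : ℤ) + 1)) : ZMod p) *
        kappa (ZMod p) h ^ 2 * ((hyp (2 * q) : ℕ) : ZMod p) ^ 2 := by
  have h0 := n_pos hq
  by_cases hle : h ≤ q
  · have hm' : m + 2 * q ≡ 2 * q + 2 * h - 1 [MOD 2 * (2 * q)] := by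
      have := hm.add_right (2 * q - 1)
      rwa [show m + 1 + (2 * q - 1) = m + 2 * q by omega,
        show 2 * h + (2 * q - 1) = 2 * q + 2 * h - 1 by omega] at this
    rw [det_mod hq (N := 2 * q + 2 * h - 1) ⟨q + h - 1, by omega⟩ (by omega) hm', ← fac_pow hq]
    have h1 := prod_lac (h := h) hq (by omega)
    rw [pow_mul _ 2 h, half_fac_sq hq] at h1
    have h2 : ((hyp (2 * q) : ℕ) : ZMod p) ^ 2 *
        (∏ s ∈ range (2 * q), ((s.factorial : ℕ) : ZMod p)) ^ 2 = 1 := by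
      have := congrArg (Nat.cast : ℕ → ZMod p) (hyp_mul (2 * q))
      rw [Nat.cast_mul, Nat.cast_prod, Nat.cast_pow, pow_mul, half_fac_sq hq] at this
      rw [← mul_pow, this, ← pow_mul, mul_comm, pow_mul]
      simp
    have h3 : ((-1 : ZMod p) ^ h) * (-1) ^ h = 1 := by rw [← mul_pow]; simp
    set C := ∏ s ∈ range (2 * q), (((2 * q + 2 * h - 1).choose s : ZMod p) +
        ((2 * q + 2 * h - 1).choose (s + 2 * q) : ZMod p))
    set S := (∏ s ∈ range (2 * q), ((s.factorial : ℕ) : ZMod p)) ^ 2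
    set H := ((hyp (2 * q) : ℕ) : ZMod p) ^ 2
    linear_combination (-(-1) ^ h * H) * h1 + C * (H * S) * h3 + C * h2
  · have hm' : m + 2 * q ≡ 2 * h - 1 - 2 * q [MOD 2 * (2 * q)] := by
      have h1 := hm.add_right (2 * q - 1)
      rw [show m + 1 + (2 * q - 1) = m + 2 * q by omega,
        show 2 * h + (2 * q - 1) = (2 * h - 1 - 2 * q) + 2 * (2 * q) by omega] at h1
      exact h1.trans (by simp [Nat.ModEq])
    rw [det_mod hq (N := 2 * h - 1 - 2 * q) ⟨h - q - 1, by omega⟩ (by omega) hm',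
      prod_eq_zero (mem_range.mpr (show 2 * q - 1 < 2 * q by omega))
        (by rw [Nat.choose_eq_zero_of_lt (by omega), Nat.choose_eq_zero_of_lt (by omega)]; simp)]
    have h2 : legendreSym p (∏ i ∈ range (2 * h - 1), (2 * (i : ℤ) + 1)) = 0 := by
      rw [legendreSym.eq_zero_iff, Int.cast_prod]
      apply prod_eq_zero (mem_range.mpr (show 2 * q < 2 * h - 1 by omega))
      have := two_n hq
      push_cast at this ⊢
      linear_combination this
    rw [h2]
    simp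

omit hp in
theorem sqrt_sq {q m : ℕ} (hq : p = 2 * (2 * q) + 1) (hm : Odd m) :
    Int.sqrt (sunDet m p) ^ 2 = sunDet m p := by
  apply cayley_int
  ext a b
  simp only [transpose_apply, of_apply, neg_apply]
  set u : ℤ := (((a : ℕ) : ℤ) + 1) ^ 2 - (((b : ℕ) : ℤ) + 1) ^ 2 with hu
  rw [show (((b : ℕ) : ℤ) + 1) ^ 2 - (((a : ℕ) : ℤ) + 1) ^ 2 = -u by rw [hu]; ring, hm.neg_pow,
    jacobiSym.neg _ ⟨2 * q, hq⟩, ZMod.χ₄_nat_one_mod_four (by omega)]
  ring

theorem main (hp4 : p % 4 = 1) (m h d : ℕ) (hh : h < (p - 1) / 2)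
    (hm : m + 1 ≡ 2 * h [MOD p - 1]) (hd : d ∣ (p - 1) / 2) :
    ∃ z : ZMod p, z ≠ 0 ∧ ((Int.sqrt (sunDet m p) : ℤ) : ZMod p) ^ 2 =
      (-1) ^ (h + 1 + (d + 1) / 2) * (legendreSym p d : ZMod p) ^ (d + 1) *
        (legendreSym p (∏ i ∈ range (2 * h - 1), (2 * (i : ℤ) + 1)) : ZMod p) *
        kappa (ZMod p) h ^ 2 * (blocks d ((p - 1) / 2 / d) : ZMod p) * z ^ (2 * d) := by
  obtain ⟨q, hq⟩ : ∃ q, p = 2 * (2 * q) + 1 := ⟨p / 4, by omega⟩
  have h0 := n_pos hq
  have hn : (p - 1) / 2 = 2 * q := by omega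
  rw [hn] at hh hd ⊢
  rw [show p - 1 = 2 * (2 * q) by omega] at hm
  obtain ⟨L, hL⟩ := hd
  have hd0 : 0 < d := Nat.pos_of_ne_zero (by rintro rfl; omega)
  have hodd : Odd m := by
    have := (hm.of_mul_right _ : m + 1 ≡ 2 * h [MOD 2])
    rw [Nat.ModEq] at this
    exact Nat.odd_iff.mpr (by omega)
  obtain ⟨z, hz, hz'⟩ := hyp_sq (p := p) (d := d) (L := L) (by rw [← hL]; exact hq) ⟨q, by omega⟩
  refine ⟨z, hz, ?_⟩
  rw [← Int.cast_pow, sqrt_sq hq hodd, det_hyp hq hh hm, legendreSym.eq_pow p d,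
    show p / 2 = d * L by omega, hL, Nat.mul_div_cancel_left _ hd0, hz', pow_add (-1 : ZMod p) (h + 1)]
  push_cast
  ring

end Pool.Agent.Work.MP_dd0b6b_nt
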