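import Pool.Agent.Work.MP_dd0b6b_nt.Main
import Mathlib.NumberTheory.LegendreSymbol.QuadraticReciprocity

/-! Sanity check: the case `d = 2`, `m = 3` of `main` gives the identity Q1 of the problem file. -/

namespace Pool.Agent.Work.MP_dd0b6b_nt

open Finset

variable {p : ℕ} [hp : Fact p.Prime]

theorem leg_prod (s : Finset ℕ) (f : ℕ → ℤ) :
    legendreSym p (∏ i ∈ s, f i) = ∏ i ∈ s, legendreSym p (f i) := by
  induction s using Finset.induction_on with
  | empty => simp
  | insert a s ha ih => rw [prod_insert ha, prod_insert ha, legendreSym.mul, ih]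

theorem leg_fac {q : ℕ} (hq : p = 2 * (2 * q) + 1) :
    legendreSym p (q.factorial : ℤ) =
      (-1) ^ ((range p).filter fun k : ℕ => 0 < k ∧ 4 * k < p ∧ legendreSym p k = -1).card := by
  have h1 : (range p).filter (fun k : ℕ => 0 < k ∧ 4 * k < p ∧ legendreSym p k = -1) =
      (Ico 1 (q + 1)).filter (fun k : ℕ => legendreSym p k = -1) := by
    ext k
    simp only [mem_filter, mem_range, mem_Ico]
    constructor
    · rintro ⟨_, h2, h3, h4⟩; exact ⟨⟨by omega, by omega⟩, h4⟩
    · rintro ⟨⟨h2, h3⟩, h4⟩; exact ⟨by omega, by omega, by omega, h4⟩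
  rw [h1, ← prod_Ico_id_eq_factorial, Nat.cast_prod, leg_prod, ← prod_const, prod_filter]
  refine prod_congr rfl fun k hk => ?_
  have hk' := mem_Ico.mp hk
  have h0 : ((k : ℤ) : ZMod p) ≠ 0 := by
    exact_mod_cast cast_ne_zero' (p := p) (a := k) (by omega) (by omega)
  rcases legendreSym.eq_one_or_neg_one p h0 with h | h <;> simp [h]

theorem int_inj {a b : ℤ} {q : ℕ} (hq : p = 2 * (2 * q) + 1) (ha : a = 0 ∨ a = 1 ∨ a = -1)
    (hb : b = 1 ∨ b = -1) (h : (a : ZMod p) = b) : a = b := by
  have h2 := two_ne hq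
  rcases ha with rfl | rfl | rfl <;> rcases hb with rfl | rfl <;> first
    | rfl
    | (exfalso; push_cast at h; first
        | exact one_ne_zero (α := ZMod p) (by linear_combination h)
        | exact one_ne_zero (α := ZMod p) (by linear_combination -h)
        | exact h2 (by linear_combination h)
        | exact h2 (by linear_combination -h))

theorem leg_sqrt {q m h : ℕ} (hq : p = 2 * (2 * q) + 1) (hh : h < 2 * q)
    (hm : m + 1 ≡ 2 * h [MOD 2 * (2 * q)]) :
    (legendreSym p (Int.sqrt (sunDet m p)) : ZMod p) =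
      ((-1) ^ h * (legendreSym p 2 : ZMod p) ^ 3 *
        (legendreSym p (∏ i ∈ range (2 * h - 1), (2 * (i : ℤ) + 1)) : ZMod p)) ^ q *
        kappa (ZMod p) h ^ (2 * q) * (legendreSym p (q.factorial : ℤ) : ZMod p) := by
  obtain ⟨z, hz, h1⟩ := main (p := p) (by omega) m h 2 (by omega)
    (by rwa [show p - 1 = 2 * (2 * q) by omega]) ⟨q, by omega⟩
  have hb : blocks 2 ((p - 1) / 2 / 2) = q.factorial ^ 2 := by
    rw [show (p - 1) / 2 / 2 = q by omega]
    simp [blocks, prod_range_succ]
  have hz' := pow_two_n hq hz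
  rw [legendreSym.eq_pow p (Int.sqrt _), legendreSym.eq_pow p (q.factorial : ℤ),
    show p / 2 = 2 * q by omega, pow_mul, h1, hb, mul_pow _ (z ^ (2 * 2)), ← pow_mul z,
    show 2 * 2 * q = 2 * (2 * q) by ring, hz']
  push_cast
  ring

theorem kappa_two {F : Type*} [Field F] (h2 : (2 : F) ≠ 0) (h3 : (3 : F) ≠ 0)
    (h5 : (5 : F) ≠ 0) : kappa F 2 * 5 = 2 * 7 ^ 2 := by
  have h6 : (6 : F) ≠ 0 := by
    rw [show (6 : F) = 2 * 3 by norm_num]; exact mul_ne_zero h2 h3
  have h20 : (20 : F) ≠ 0 := by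
    rw [show (20 : F) = 2 * 2 * 5 by norm_num]; exact mul_ne_zero (mul_ne_zero h2 h2) h5
  simp only [kappa, prod_range_succ, range_zero, prod_empty]
  norm_num [Nat.choose]
  field_simp
  ring

theorem q1 (hp4 : p % 4 = 1) :
    legendreSym p (Int.sqrt (sunDet 3 p)) =
      (-1) ^ ((range p).filter fun k : ℕ => 0 < k ∧ 4 * k < p ∧ legendreSym p k = -1).card *
        jacobiSym p (4 + (-1) ^ ((p - 1) / 4) : ℤ).natAbs := by
  obtain ⟨q, hq⟩ : ∃ q, p = 2 * (2 * q) + 1 := ⟨p / 4, by omega⟩
  have h0 := n_pos hq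
  have hleg : ∀ a : ℤ, legendreSym p a = 0 ∨ legendreSym p a = 1 ∨ legendreSym p a = -1 := by
    intro a
    by_cases ha : (a : ZMod p) = 0
    · exact Or.inl ((legendreSym.eq_zero_iff p a).mpr ha)
    · exact Or.inr (legendreSym.eq_one_or_neg_one p ha)
  have h2 : (legendreSym p 2 : ZMod p) = (-1) ^ q := by
    rw [legendreSym.eq_pow, show p / 2 = 2 * q by omega, ← two_pow_n hq]; simp
  have hf : legendreSym p (q.factorial : ℤ) = 1 ∨ legendreSym p (q.factorial : ℤ) = -1 :=
    legendreSym.eq_one_or_neg_one p (by exact_mod_cast fac_ne_zero (p := p) (a := q) (by omega))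
  rw [← leg_fac hq, show (p - 1) / 4 = q by omega]
  have hc3 : ((3 : ℤ) : ZMod p) ≠ 0 := by
    exact_mod_cast cast_ne_zero' (p := p) (a := 3) (by omega) (by omega)
  have hr3 : jacobiSym p 3 = legendreSym p 3 := by
    rw [jacobiSym.quadratic_reciprocity_one_mod_four hp4 (by decide),
      jacobiSym.legendreSym.to_jacobiSym]; rfl
  have hr5 : jacobiSym p 5 = legendreSym p 5 := by
    rw [jacobiSym.quadratic_reciprocity_one_mod_four hp4 (by decide),
      jacobiSym.legendreSym.to_jacobiSym]; rfl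
  have hb := legendreSym.eq_one_or_neg_one p hc3
  by_cases hq1 : q = 1
  · subst hq1
    have h1 := leg_sqrt (m := 3) (h := 0) hq (by norm_num) (by decide)
    have h53 : jacobiSym p 3 = -1 := by rw [hq]; norm_num
    rw [h2] at h1
    apply int_inj hq (hleg _)
    · simp [h53]
    · rw [h1]; simp [h53, kappa]; norm_num
  have hc5 : ((5 : ℤ) : ZMod p) ≠ 0 := by
    exact_mod_cast cast_ne_zero' (p := p) (a := 5) (by omega) (by omega)
  have hc7 : ((7 : ℤ) : ZMod p) ≠ 0 := by
    exact_mod_cast cast_ne_zero' (p := p) (a := 7) (by omega) (by omega)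
  have hc := legendreSym.eq_one_or_neg_one p hc5
  have h1 := leg_sqrt (m := 3) (h := 2) hq (by omega) rfl
  have hk : kappa (ZMod p) 2 ^ (2 * q) * (legendreSym p 5 : ZMod p) = (-1) ^ q := by
    have := kappa_two (two_ne hq) (by exact_mod_cast hc3) (by exact_mod_cast hc5)
    rw [legendreSym.eq_pow, show p / 2 = 2 * q by omega, ← mul_pow]
    push_cast
    rw [this, mul_pow, two_pow_n hq, ← pow_mul, pow_two_n hq (by exact_mod_cast hc7), mul_one]
  have h15 : legendreSym p (∏ i ∈ range (2 * 2 - 1), (2 * (i : ℤ) + 1)) =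
      legendreSym p 3 * legendreSym p 5 := by
    rw [← legendreSym.mul]; congr 1
  have hk' : kappa (ZMod p) 2 ^ (2 * q) = (-1) ^ q * (legendreSym p 5 : ZMod p) := by
    rcases hc with h | h <;> rw [h] at hk ⊢ <;> push_cast at hk ⊢
    · linear_combination hk
    · linear_combination -hk
  rw [h2, h15, hk'] at h1
  rcases Nat.even_or_odd q with he | ho
  · rw [he.neg_one_pow, show ((4 : ℤ) + 1).natAbs = 5 by norm_num, hr5]
    apply int_inj hq (hleg _)
    · rcases hf with h | h <;> rcases hc with h' | h' <;> simp [h, h']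
    · rw [h1]
      rcases hb with h | h <;> rcases hc with h' | h' <;> simp [h, h', he.neg_one_pow]
  · rw [ho.neg_one_pow, show ((4 : ℤ) + -1).natAbs = 3 by norm_num, hr3]
    apply int_inj hq (hleg _)
    · rcases hf with h | h <;> rcases hb with h' | h' <;> simp [h, h']
    · rw [h1]
      have h3 : Odd 3 := by decide
      rcases hb with h | h <;> rcases hc with h' | h' <;>
        simp [h, h', ho.neg_one_pow, h3.neg_one_pow]

end Pool.Agent.Work.MP_dd0b6b_nt
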